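import Mathlib

set_option autoImplicit false

namespace Pool.Agent.Results.MP_33f3d1_co.Counter

/-- `Y` is a nonempty relating retract of the poset `X`. -/
def RelRetract {X : Type} [PartialOrder X] (Y : Set X) : Prop :=
  Y.Nonempty ∧ ∃ r : X → X, Monotone r ∧ (∀ x, r x ∈ Y) ∧ (∀ y ∈ Y, r y = y) ∧
    ∀ x, x ∉ Y → (x ≤ r x ∨ r x ≤ x)

abbrev P : Type :=
  {p : Fin 3 × Fin 3 // p = (0, 2) ∨ p = (1, 0) ∨ p = (1, 2) ∨ p = (2, 1) ∨ p = (2, 2)}

def a : P := ⟨(0, 2), by decide⟩
def b : P := ⟨(1, 0), by decide⟩
def c : P := ⟨(1, 2), by decide⟩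
def d : P := ⟨(2, 1), by decide⟩
def t : P := ⟨(2, 2), by decide⟩

theorem result : ¬ ∀ (X : Type) [Fintype X] [PartialOrder X] (Y Z : Set X),
    Minimal RelRetract Y → Minimal RelRetract Z → Nonempty (Y ≃o Z) := by
  intro h
  have hY : Minimal RelRetract ({b, c} : Set P) := by
    refine ⟨⟨⟨b, by simp⟩, fun x => if x = b ∨ x = d then b else c, ?_, ?_, ?_, ?_⟩, ?_⟩
    · intro x y
      revert x y
      decide
    · intro x
      by_cases hx : x = b ∨ x = d <;> simp [hx]
    · intro y hy
      rcases hy with rfl | rfl <;> decide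
    · intro x _
      revert x
      decide
    · rintro S ⟨-, r, -, hr1, -, hr3⟩ hS
      have ha : a ∉ S := fun h => by
        rcases hS h with h | h <;> exact absurd h (by decide)
      have hd : d ∉ S := fun h => by
        rcases hS h with h | h <;> exact absurd h (by decide)
      have h1 : r a = c := by
        rcases hS (hr1 a) with h | h
        · have := hr3 a ha
          rw [h] at this
          exact absurd this (by decide)
        · exact h
      have h2 : r d = b := by
        rcases hS (hr1 d) with h | h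
        · exact h
        · have := hr3 d hd
          rw [h] at this
          exact absurd this (by decide)
      rintro x (rfl | rfl)
      · rw [← h2]; exact hr1 d
      · rw [← h1]; exact hr1 a
  have hZ : Minimal RelRetract ({t} : Set P) := by
    refine ⟨⟨⟨t, by simp⟩, fun _ => t, monotone_const, by simp, by simp, ?_⟩, ?_⟩
    · intro x _
      left
      revert x
      decide
    · rintro S ⟨⟨s, hs⟩, -⟩ hS x hx
      rw [hx, ← hS hs]
      exact hs
  obtain ⟨e⟩ := h P _ _ hY hZ
  have h1 : e ⟨b, by simp⟩ = e ⟨c, by simp⟩ := Subsingleton.elim _ _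
  have h2 := congrArg Subtype.val (e.injective h1)
  exact absurd h2 (by decide)

end Pool.Agent.Results.MP_33f3d1_co.Counter
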